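import Pool.Agent.Helper5.SR.St3
import Pool.Agent.Helper71.TU.X5aux

/-!
# Project SR (MP_d6acc2_an), part 3, module ATC: closeness
-/

set_option autoImplicit false

namespace Pool.Agent.Helper75.SR

open Complex MeasureTheory Set Metric Filter Topology
open scoped Real
open Helper5.SR Pool.Agent.Helper51.LT

/-- Taylor formula with a bound relative to the derivative -/
private theorem taylor_ATC (hD1 : StD1) (hD3 : StD3) {G : ℂ → ℂ} (hG : Un G (ball 0 1))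
    {Y Y₀ : ℂ} (hY : ‖Y‖ ≤ 1 / 8) (hY₀ : ‖Y₀‖ ≤ 1 / 8) :
    ‖G Y - G Y₀ - deriv G Y₀ * (Y - Y₀)‖ ≤ 128 * ‖deriv G Y₀‖ * ‖Y - Y₀‖ ^ 2 := by
  obtain ⟨hd, hi⟩ := hG
  have hsub : ∀ y ∈ closedBall (0 : ℂ) (1 / 8), ball y (1 / 2) ⊆ ball (0 : ℂ) 1 := by
    intro y hy x hx
    rw [mem_closedBall_zero_iff] at hy
    rw [mem_ball, dist_eq_norm] at hx
    rw [mem_ball_zero_iff]
    have : ‖x‖ ≤ ‖x - y‖ + ‖y‖ := by
      calc ‖x‖ = ‖(x - y) + y‖ := by ring_nf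
        _ ≤ _ := norm_add_le _ _
    linarith
  have hmem : ∀ y ∈ closedBall (0 : ℂ) (1 / 8), y ∈ ball (0 : ℂ) 1 := by
    intro y hy
    exact hsub y hy (mem_ball_self (by norm_num))
  have hun : ∀ y ∈ closedBall (0 : ℂ) (1 / 8), Un G (ball y (1 / 2)) := fun y hy =>
    ⟨hd.mono (hsub y hy), hi.mono (hsub y hy)⟩
  have hY₀' : Y₀ ∈ closedBall (0 : ℂ) (1 / 8) := mem_closedBall_zero_iff.mpr hY₀
  have hY' : Y ∈ closedBall (0 : ℂ) (1 / 8) := mem_closedBall_zero_iff.mpr hY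
  have hfirst : ∀ y ∈ closedBall (0 : ℂ) (1 / 8), ‖deriv G y‖ ≤ 16 * ‖deriv G Y₀‖ := by
    intro y hy
    have hyn : ‖y‖ ≤ 1 / 8 := mem_closedBall_zero_iff.mp hy
    have h1 : ‖y - Y₀‖ ≤ 1 / 4 := (norm_sub_le _ _).trans (by linarith)
    have h2 := (hD3 G Y₀ y (1 / 2) (by norm_num) (hun Y₀ hY₀') (by linarith)).1
    have h3 : (1 / 4 : ℝ) ^ 4 ≤ (1 / 2 - ‖y - Y₀‖) ^ 4 :=
      pow_le_pow_left₀ (by norm_num) (by linarith) 4
    have h4 : (1 / 4 : ℝ) ^ 4 * ‖deriv G y‖ ≤ (1 / 2) ^ 4 * ‖deriv G Y₀‖ :=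
      (mul_le_mul_of_nonneg_right h3 (norm_nonneg _)).trans h2
    norm_num at h4
    linarith
  have hsecond : ∀ y ∈ closedBall (0 : ℂ) (1 / 8), ‖deriv (deriv G) y‖ ≤ 128 * ‖deriv G Y₀‖ := by
    intro y hy
    have h1 := hD1 G y (1 / 2) (by norm_num) (hun y hy)
    have h2 := hfirst y hy
    linarith
  have hdd : DifferentiableOn ℂ (deriv G) (ball (0 : ℂ) 1) := hd.deriv isOpen_ball
  have hlip : ∀ y ∈ closedBall (0 : ℂ) (1 / 8), ‖deriv G y - deriv G Y₀‖ ≤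
      128 * ‖deriv G Y₀‖ * ‖y - Y₀‖ := by
    intro y hy
    exact (convex_closedBall (0 : ℂ) (1 / 8)).norm_image_sub_le_of_norm_deriv_le
      (fun x hx => hdd.differentiableAt (isOpen_ball.mem_nhds (hmem x hx))) hsecond hY₀' hy
  -- the function minus its linear part
  set s : Set ℂ := closedBall (0 : ℂ) (1 / 8) ∩ closedBall Y₀ ‖Y - Y₀‖ with hs
  have hconv : Convex ℝ s := (convex_closedBall _ _).inter (convex_closedBall _ _)
  have hYs : Y ∈ s := ⟨hY', by rw [mem_closedBall, dist_eq_norm]⟩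
  have hY₀s : Y₀ ∈ s := ⟨hY₀', mem_closedBall_self (norm_nonneg _)⟩
  have hder : ∀ y ∈ s, HasDerivAt (fun x => G x - deriv G Y₀ * x) (deriv G y - deriv G Y₀) y := by
    intro y hy
    have h1 : HasDerivAt G (deriv G y) y :=
      (hd.differentiableAt (isOpen_ball.mem_nhds (hmem y hy.1))).hasDerivAt
    have h2 := (hasDerivAt_id y).const_mul (deriv G Y₀)
    rw [mul_one] at h2
    exact h1.sub h2
  have h3 := hconv.norm_image_sub_le_of_norm_deriv_le (f := fun x => G x - deriv G Y₀ * x)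
    (C := 128 * ‖deriv G Y₀‖ * ‖Y - Y₀‖) (fun y hy => (hder y hy).differentiableAt) (by
      intro y hy
      rw [(hder y hy).deriv]
      refine (hlip y hy.1).trans ?_
      have : ‖y - Y₀‖ ≤ ‖Y - Y₀‖ := by
        have := hy.2
        rwa [mem_closedBall, dist_eq_norm] at this
      exact mul_le_mul_of_nonneg_left this (by positivity)) hY₀s hYs
  have e1 : G Y - G Y₀ - deriv G Y₀ * (Y - Y₀) =
      (G Y - deriv G Y₀ * Y) - (G Y₀ - deriv G Y₀ * Y₀) := by ring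
  rw [e1]
  refine h3.trans (le_of_eq ?_)
  ring

/-- the algebra of the closeness estimate -/
private theorem alg_ATC {D P E F T S Y Y₀ : ℂ} {ε L : ℝ} (hL : 0 < L) (hD : D ≠ 0) (hP : P ≠ 0)
    (hS : 1 + ε * S ≠ 0) (hYY : (L : ℂ) * (Y - Y₀) = F + ε * T) :
    (P * (Y - Y₀) + E) * (D / (P * (D * (1 + ε * S) / L))) - F =
      ε * (T - S * F) / (1 + ε * S) + E * L / (P * (1 + ε * S)) := by
  have hL' : (L : ℂ) ≠ 0 := by exact_mod_cast hL.ne'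
  have hYY' : Y - Y₀ = (F + ε * T) / L := by
    rw [eq_div_iff hL', mul_comm]
    exact hYY
  rw [hYY']
  field_simp
  ring

/-- ATC. -/
theorem hAtc (hD1 : StD1) (hD3 : StD3) (hSsf : StSsf) : StAtc := by
  intro f a θ δ κ Λ hstd r η hr0 hr1 hη
  obtain ⟨⟨hfd, hfi⟩, hf0, hfinj, hlip, hκ, hκd, hre, hδ, harc⟩ := hstd
  obtain ⟨hS1, hS0, hSinj, -⟩ := hSsf
  set w : ℂ := f (exp (θ * I)) with hw
  have hwre : w.re = a := harc θ (by rw [sub_self, abs_zero]; exact hδ.le)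
  have hθn : ‖exp ((θ : ℂ) * I)‖ = 1 := Complex.norm_exp_ofReal_mul_I θ
  have hθmem : exp ((θ : ℂ) * I) ∈ closedBall (0 : ℂ) 1 := by
    rw [mem_closedBall_zero_iff, hθn]
  have hΛ : 0 ≤ Λ := by
    have h1 := hlip (exp (θ * I)) hθmem 0 (mem_closedBall_self zero_le_one)
    rw [sub_zero, hθn, mul_one] at h1
    exact (norm_nonneg _).trans h1
  have hrsub : closedBall (0 : ℂ) r ⊆ ball (0 : ℂ) 1 := closedBall_subset_ball hr1
  have hWne : ∀ z ∈ ball (0 : ℂ) 1, w - f z ≠ 0 := by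
    intro z hz h
    have h1 := hre z hz
    have h2 : (w - f z).re = 0 := by rw [h]; rfl
    rw [Complex.sub_re, hwre] at h2
    linarith
  -- the lower bound on the compact disc
  obtain ⟨ρ₁, hρ₁, hρ⟩ : ∃ ρ₁ : ℝ, 0 < ρ₁ ∧ ∀ z ∈ closedBall (0 : ℂ) r, ρ₁ ≤ ‖w - f z‖ := by
    have hcont : ContinuousOn (fun z => ‖w - f z‖) (closedBall (0 : ℂ) r) :=
      (continuousOn_const.sub (hfd.continuousOn.mono hrsub)).norm
    obtain ⟨z₀, hz₀, hmin⟩ := (isCompact_closedBall (0 : ℂ) r).exists_isMinOn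
      ⟨0, mem_closedBall_self hr0⟩ hcont
    exact ⟨‖w - f z₀‖, norm_pos_iff.mpr (hWne z₀ (hrsub hz₀)), fun z hz => hmin hz⟩
  have hfz : ∀ z ∈ closedBall (0 : ℂ) r, ‖f z‖ ≤ Λ := by
    intro z hz
    have h1 := hlip z (ball_subset_closedBall (hrsub hz)) 0 (mem_closedBall_self zero_le_one)
    rw [hf0, sub_zero, sub_zero] at h1
    have h2 : ‖z‖ ≤ 1 := by
      have := hrsub hz
      rw [mem_ball_zero_iff] at this
      exact this.le
    nlinarith [norm_nonneg z]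
  have hWle : ∀ z ∈ closedBall (0 : ℂ) r, ‖w - f z‖ ≤ 2 * Λ := by
    intro z hz
    have h1 := hlip (exp (θ * I)) hθmem z (ball_subset_closedBall (hrsub hz))
    have h2 : ‖exp ((θ : ℂ) * I) - z‖ ≤ 2 := by
      refine (norm_sub_le _ _).trans ?_
      have := hrsub hz
      rw [mem_ball_zero_iff] at this
      rw [hθn]
      linarith
    refine h1.trans ?_
    nlinarith
  set M₁ : ℝ := 2 / ρ₁ + Λ / ρ₁ ^ 2 with hM₁
  have hM₁0 : 0 ≤ M₁ := by positivity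
  refine ⟨min (ρ₁ ^ 2 / 2) (η / (4 * (M₁ + 1))), lt_min (by positivity) (by positivity), ?_⟩
  intro ε hε hεle
  have hε1 : ε ≤ ρ₁ ^ 2 / 2 := hεle.trans (min_le_left _ _)
  have hε2 : ε ≤ η / (4 * (M₁ + 1)) := hεle.trans (min_le_right _ _)
  set B : ℝ := Λ + 2 * ε / ρ₁ with hB
  have hB0 : 0 ≤ B := by positivity
  refine ⟨max (8 * (ε / ρ₁ + 2 * Λ)) (512 * B ^ 2 / η), ?_⟩
  intro L hL hL2 K hK z hz
  have hL0 : 0 < L := lt_of_le_of_lt (by positivity) hL2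
  have hLa : 8 * (ε / ρ₁ + 2 * Λ) ≤ L := (le_max_left _ _).trans hL
  have hLb : 512 * B ^ 2 / η ≤ L := (le_max_right _ _).trans hL
  have hzmem : z ∈ closedBall (0 : ℂ) r := mem_closedBall_zero_iff.mpr hz
  have h0mem : (0 : ℂ) ∈ closedBall (0 : ℂ) r := mem_closedBall_self hr0
  have hL' : (L : ℂ) ≠ 0 := by exact_mod_cast hL0.ne'
  -- the composite function
  set G : ℂ → ℂ := fun Y => K (SS Y) with hGdef
  have hslt : ∀ Y ∈ ball (0 : ℂ) 1, Slt Y := by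
    intro Y hY
    right
    rw [mem_ball_zero_iff] at hY
    exact lt_of_le_of_lt (Complex.abs_im_le_norm Y) hY
  have hSSmem : ∀ Y ∈ ball (0 : ℂ) 1, SS Y ∈ ball (0 : ℂ) 1 := by
    intro Y hY
    rw [mem_ball_zero_iff]
    exact (hS1 Y (hslt Y hY)).2.2.1
  have hGder : ∀ Y ∈ ball (0 : ℂ) 1, HasDerivAt G (deriv K (SS Y) * deriv SS Y) Y := by
    intro Y hY
    have h1 : HasDerivAt K (deriv K (SS Y)) (SS Y) :=
      (hK.1.differentiableAt (isOpen_ball.mem_nhds (hSSmem Y hY))).hasDerivAt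
    exact h1.comp Y (hS1 Y (hslt Y hY)).1.hasDerivAt
  have hGun : Un G (ball 0 1) := by
    refine ⟨fun Y hY => (hGder Y hY).differentiableAt.differentiableWithinAt, ?_⟩
    intro Y hY Y' hY' h
    exact hSinj (hslt Y hY) (hslt Y' hY') (hK.2 (hSSmem Y hY) (hSSmem Y' hY') h)
  -- the points
  have hJb : ∀ x ∈ closedBall (0 : ℂ) r, ‖JJ ε L (w - f x)‖ ≤ 1 / 8 := by
    intro x hx
    have h1 := hρ x hx
    have h2 := hWle x hx
    have h3 : ‖(ε : ℂ) / (w - f x) - (w - f x)‖ ≤ ε / ρ₁ + 2 * Λ := by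
      refine (norm_sub_le _ _).trans (add_le_add ?_ h2)
      rw [norm_div, Complex.norm_real, Real.norm_eq_abs, abs_of_pos hε]
      exact div_le_div_of_nonneg_left hε.le hρ₁ h1
    unfold JJ
    rw [norm_div, Complex.norm_real, Real.norm_eq_abs, abs_of_pos hL0, div_le_iff₀ hL0]
    linarith
  set Y : ℂ := JJ ε L (w - f z) with hY
  set Y₀ : ℂ := JJ ε L (w - f 0) with hY₀
  have hYn : ‖Y‖ ≤ 1 / 8 := hJb z hzmem
  have hY₀n : ‖Y₀‖ ≤ 1 / 8 := hJb 0 h0mem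
  have hY₀mem : Y₀ ∈ ball (0 : ℂ) 1 := by
    rw [mem_ball_zero_iff]
    linarith
  set P : ℂ := deriv G Y₀ with hP
  have hP0 : P ≠ 0 := Pool.TU.X5.deriv_ne_zero_of_injOn isOpen_ball hGun.1 hGun.2 hY₀mem
  set D : ℂ := deriv f 0 with hD
  have h01 : (0 : ℂ) ∈ ball (0 : ℂ) 1 := mem_ball_self one_pos
  have hD0 : D ≠ 0 := by
    intro h
    have h1 := hκd 0 h01
    rw [← hD, h, norm_zero] at h1
    linarith
  set S : ℂ := 1 / w ^ 2 with hSdef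
  set T : ℂ := 1 / (w - f z) - 1 / w with hT
  have hw0 : w ≠ 0 := by
    have := hWne 0 h01
    rwa [hf0, sub_zero] at this
  have hwn : ρ₁ ≤ ‖w‖ := by
    have := hρ 0 h0mem
    rwa [hf0, sub_zero] at this
  have hWz : w - f z ≠ 0 := hWne z (hrsub hzmem)
  have hWzn : ρ₁ ≤ ‖w - f z‖ := hρ z hzmem
  -- the derivative of the attaching map at the origin
  have hJder : HasDerivAt (fun x => JJ ε L (w - f x)) (D * (1 + ε * S) / L) 0 := by
    have h1 : HasDerivAt (fun x => w - f x) (-D) 0 := by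
      have h2 : HasDerivAt f D 0 :=
        (hfd.differentiableAt (isOpen_ball.mem_nhds h01)).hasDerivAt
      exact h2.const_sub w
    have h3 : HasDerivAt (fun x => (ε : ℂ) / (w - f x))
        ((0 * (w - f 0) - ε * (-D)) / (w - f 0) ^ 2) 0 :=
      (hasDerivAt_const (0 : ℂ) (ε : ℂ)).div h1 (by rw [hf0, sub_zero]; exact hw0)
    have h4 := (h3.sub h1).div_const (L : ℂ)
    refine HasDerivAt.congr_deriv h4 ?_
    rw [hf0, sub_zero, hSdef]
    field_simp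
    ring
  have hhder : deriv K (hh f θ ε L 0) * deriv (hh f θ ε L) 0 = P * (D * (1 + ε * S) / L) := by
    have h0 : HasDerivAt SS (deriv SS Y₀) (JJ ε L (w - f 0)) :=
      (hS1 Y₀ (hslt Y₀ hY₀mem)).1.hasDerivAt
    have h1 : HasDerivAt (fun x => SS (JJ ε L (w - f x))) (deriv SS Y₀ * (D * (1 + ε * S) / L)) 0 :=
      HasDerivAt.comp (h₂ := SS) (0 : ℂ) h0 hJder
    have h2 : deriv (hh f θ ε L) 0 = deriv SS Y₀ * (D * (1 + ε * S) / L) := h1.deriv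
    have h3 : P = deriv K (SS Y₀) * deriv SS Y₀ := (hGder Y₀ hY₀mem).deriv
    have h4 : hh f θ ε L 0 = SS Y₀ := rfl
    rw [h2, h3, h4]
    ring
  have hεS : ‖(ε : ℂ) * S‖ ≤ 1 / 2 := by
    rw [norm_mul, Complex.norm_real, Real.norm_eq_abs, abs_of_pos hε, hSdef, norm_div, norm_one,
      norm_pow, mul_one_div, div_le_iff₀ (by positivity)]
    have : ρ₁ ^ 2 ≤ ‖w‖ ^ 2 := pow_le_pow_left₀ hρ₁.le hwn 2
    linarith
  have h1S : 1 / 2 ≤ ‖1 + (ε : ℂ) * S‖ := by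
    have h1 : ‖(1 : ℂ)‖ ≤ ‖1 + (ε : ℂ) * S‖ + ‖(ε : ℂ) * S‖ := by
      calc ‖(1 : ℂ)‖ = ‖(1 + (ε : ℂ) * S) - (ε : ℂ) * S‖ := by ring_nf
        _ ≤ _ := norm_sub_le _ _
    rw [norm_one] at h1
    linarith
  have h1S0 : 1 + (ε : ℂ) * S ≠ 0 := by
    intro h
    rw [h, norm_zero] at h1S
    linarith
  have hYY : (L : ℂ) * (Y - Y₀) = f z + ε * T := by
    have e1 : (L : ℂ) * Y = ε / (w - f z) - (w - f z) := by
      rw [hY]
      unfold JJ
      rw [mul_div_cancel₀ _ hL']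
    have e2 : (L : ℂ) * Y₀ = ε / w - w := by
      rw [hY₀, hf0, sub_zero]
      unfold JJ
      rw [mul_div_cancel₀ _ hL']
    rw [mul_sub, e1, e2, hT]
    ring
  set E : ℂ := G Y - G Y₀ - P * (Y - Y₀) with hE
  have hEb : ‖E‖ ≤ 128 * ‖P‖ * ‖Y - Y₀‖ ^ 2 := taylor_ATC hD1 hD3 hGun hYn hY₀n
  have hmain : (K (hh f θ ε L z) - K (hh f θ ε L 0)) *
      (deriv f 0 / (deriv K (hh f θ ε L 0) * deriv (hh f θ ε L) 0)) - f z =
      ε * (T - S * f z) / (1 + ε * S) + E * L / (P * (1 + ε * S)) := by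
    rw [hhder]
    have e1 : K (hh f θ ε L z) - K (hh f θ ε L 0) = P * (Y - Y₀) + E := by
      show G Y - G Y₀ = _
      rw [hE]
      ring
    rw [e1]
    exact alg_ATC hL0 hD0 hP0 h1S0 hYY
  rw [hmain]
  -- first term
  have hTn : ‖T‖ ≤ 2 / ρ₁ := by
    rw [hT]
    refine (norm_sub_le _ _).trans ?_
    rw [norm_div, norm_div, norm_one]
    have h1 : 1 / ‖w - f z‖ ≤ 1 / ρ₁ := one_div_le_one_div_of_le hρ₁ hWzn
    have h2 : 1 / ‖w‖ ≤ 1 / ρ₁ := one_div_le_one_div_of_le hρ₁ hwn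
    have h3 : (2 : ℝ) / ρ₁ = 1 / ρ₁ + 1 / ρ₁ := by ring
    linarith
  have hSn : ‖S * f z‖ ≤ Λ / ρ₁ ^ 2 := by
    rw [norm_mul, hSdef, norm_div, norm_one, norm_pow]
    have h1 : 1 / ‖w‖ ^ 2 ≤ 1 / ρ₁ ^ 2 :=
      one_div_le_one_div_of_le (by positivity) (pow_le_pow_left₀ hρ₁.le hwn 2)
    calc 1 / ‖w‖ ^ 2 * ‖f z‖ ≤ 1 / ρ₁ ^ 2 * Λ :=
          mul_le_mul h1 (hfz z hzmem) (norm_nonneg _) (by positivity)
      _ = Λ / ρ₁ ^ 2 := by ring
  have hfirst : ‖(ε : ℂ) * (T - S * f z) / (1 + ε * S)‖ ≤ η / 2 := by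
    rw [norm_div, norm_mul, Complex.norm_real, Real.norm_eq_abs, abs_of_pos hε,
      div_le_iff₀ (by linarith)]
    have h1 : ‖T - S * f z‖ ≤ M₁ := (norm_sub_le _ _).trans (add_le_add hTn hSn)
    have h2 : ε * (4 * (M₁ + 1)) ≤ η := by
      rwa [le_div_iff₀ (by positivity)] at hε2
    have h3 : ε * ‖T - S * f z‖ ≤ ε * M₁ := mul_le_mul_of_nonneg_left h1 hε.le
    nlinarith
  have hYYn : L * ‖Y - Y₀‖ ≤ B := by
    have h1 : ‖(L : ℂ) * (Y - Y₀)‖ = L * ‖Y - Y₀‖ := by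
      rw [norm_mul, Complex.norm_real, Real.norm_eq_abs, abs_of_pos hL0]
    rw [← h1, hYY]
    refine (norm_add_le _ _).trans ?_
    rw [norm_mul, Complex.norm_real, Real.norm_eq_abs, abs_of_pos hε, hB]
    refine add_le_add (hfz z hzmem) ?_
    have h2 : 2 * ε / ρ₁ = ε * (2 / ρ₁) := by ring
    rw [h2]
    exact mul_le_mul_of_nonneg_left hTn hε.le
  have hPn : 0 < ‖P‖ := norm_pos_iff.mpr hP0
  have hsecond : ‖E * L / (P * (1 + ε * S))‖ ≤ η / 2 := by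
    rw [norm_div, norm_mul, norm_mul, Complex.norm_real, Real.norm_eq_abs, abs_of_pos hL0,
      div_le_iff₀ (by positivity)]
    have h1 : ‖E‖ * L ≤ 128 * ‖P‖ * ‖Y - Y₀‖ ^ 2 * L := mul_le_mul_of_nonneg_right hEb hL0.le
    have h2 : 512 * B ^ 2 ≤ L * η := by
      rwa [div_le_iff₀ hη] at hLb
    have h3 : (L * ‖Y - Y₀‖) ^ 2 ≤ B ^ 2 := pow_le_pow_left₀ (by positivity) hYYn 2
    -- `512 L ‖Y-Y₀‖² ≤ η`
    have h4 : L * (512 * L * ‖Y - Y₀‖ ^ 2) ≤ L * η := by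
      have : L * (512 * L * ‖Y - Y₀‖ ^ 2) = 512 * (L * ‖Y - Y₀‖) ^ 2 := by ring
      rw [this]
      linarith
    have h5 : 512 * L * ‖Y - Y₀‖ ^ 2 ≤ η := le_of_mul_le_mul_left h4 hL0
    have h6 : 128 * ‖P‖ * ‖Y - Y₀‖ ^ 2 * L ≤ η / 2 * (‖P‖ * (1 / 2)) := by
      have e : 128 * ‖P‖ * ‖Y - Y₀‖ ^ 2 * L = ‖P‖ / 4 * (512 * L * ‖Y - Y₀‖ ^ 2) := by ring
      rw [e]
      have := mul_le_mul_of_nonneg_left h5 (show 0 ≤ ‖P‖ / 4 by positivity)
      linarith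
    have h7 : η / 2 * (‖P‖ * (1 / 2)) ≤ η / 2 * (‖P‖ * ‖1 + (ε : ℂ) * S‖) := by
      apply mul_le_mul_of_nonneg_left _ (by positivity)
      exact mul_le_mul_of_nonneg_left h1S hPn.le
    linarith
  calc _ ≤ ‖(ε : ℂ) * (T - S * f z) / (1 + ε * S)‖ + ‖E * L / (P * (1 + ε * S))‖ := norm_add_le _ _
    _ ≤ η := by linarith

end Pool.Agent.Helper75.SR
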