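import Pool.Agent.Helper5.SR.St2

/-!
# Project SR (MP_d6acc2_an), part 2, module TF: assembly of the touching map
-/

set_option autoImplicit false

namespace Pool.Agent.Helper75.SR

open Complex MeasureTheory Set Metric Filter Topology
open scoped Real
open Helper5.SR Pool.Agent.Helper51.LT
open Pool.Agent.Helper60.Rel (LH)

private theorem LC_mono_TF {C C' : ℝ} {Φ : ℂ → ℂ} (hC : C ≤ C') (h : LC C Φ) : LC C' Φ := by
  obtain ⟨h1, h2, h3, h4, h5⟩ := h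
  exact ⟨h1, h2, h3, h4, fun ζ hζ => (h5 ζ hζ).trans hC⟩

private theorem Tou_mono_TF {C C' κ : ℝ} {Φ : ℂ → ℂ} (hC0 : 1 ≤ C) (hC : C ≤ C')
    (h : Tou C κ Φ) : Tou C' κ Φ := by
  obtain ⟨h1, h2, h3⟩ := h
  refine ⟨h1, h2.trans hC, fun ζ hζ hn => ?_⟩
  have h4 : 1 / C' ≤ 1 / C := one_div_le_one_div_of_le (by linarith) hC
  obtain ⟨h5, h6⟩ := h3 ζ hζ (hn.trans h4)
  refine ⟨h5.trans ?_, h6.trans ?_⟩
  · exact mul_le_mul_of_nonneg_right hC (by positivity)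
  · exact mul_le_mul_of_nonneg_right hC (norm_nonneg _)

/-- rotation of a bounded univalent function -/
private theorem rot_TF {h : ℂ → ℂ} (hh : BU h) (h0 : h 0 = 0) (ω : ℂ) (hω : ‖ω‖ = 1) :
    BU (fun z => h (ω * z)) ∧ h (ω * 0) = 0 ∧
      (∀ z ∈ ball (0 : ℂ) 1, ‖deriv (fun z => h (ω * z)) z‖ = ‖deriv h (ω * z)‖) := by
  obtain ⟨⟨hd, hi⟩, hb⟩ := hh
  have hmap : ∀ z ∈ ball (0 : ℂ) 1, ω * z ∈ ball (0 : ℂ) 1 := by
    intro z hz
    rw [mem_ball_zero_iff] at hz ⊢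
    rw [norm_mul, hω, one_mul]
    exact hz
  have hω0 : ω ≠ 0 := by
    intro h
    rw [h, norm_zero] at hω
    norm_num at hω
  refine ⟨⟨⟨?_, ?_⟩, fun z hz => hb _ (hmap z hz)⟩, by rw [mul_zero, h0], ?_⟩
  · exact hd.comp ((differentiable_id.const_mul ω).differentiableOn) hmap
  · intro z hz w hw hzw
    exact mul_left_cancel₀ hω0 (hi (hmap z hz) (hmap w hw) hzw)
  · intro z hz
    have h1 : HasDerivAt h (deriv h (ω * z)) (ω * z) :=
      (hd.differentiableAt (isOpen_ball.mem_nhds (hmap z hz))).hasDerivAt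
    have h2 : HasDerivAt (fun z : ℂ => ω * z) ω z := by
      simpa using (hasDerivAt_id z).const_mul ω
    have h3 := h1.comp z h2
    have h4 : deriv (fun z => h (ω * z)) z = deriv h (ω * z) * ω := h3.deriv
    rw [h4, norm_mul, hω, mul_one]

/-- one of the four quarter arcs carries a quarter of the integral mean -/
private theorem quarter_TF {h : ℂ → ℂ} (hh : BU h) {ρ : ℝ} (hρ0 : 0 < ρ) (hρ1 : ρ < 1) :
    ∃ s : ℝ, IM h ρ / 4 ≤
      ∫ t in (-(π / 4))..(π / 4), ‖deriv h (ρ * exp (((t + s : ℝ) : ℂ) * I))‖ := by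
  obtain ⟨⟨hd, -⟩, -⟩ := hh
  set f : ℝ → ℝ := fun t => ‖deriv h (ρ * exp ((t : ℂ) * I))‖ with hf
  have hmem : ∀ t : ℝ, (ρ : ℂ) * exp ((t : ℂ) * I) ∈ ball (0 : ℂ) 1 := by
    intro t
    rw [mem_ball_zero_iff, norm_mul, Complex.norm_exp_ofReal_mul_I, mul_one, Complex.norm_real,
      Real.norm_eq_abs, abs_of_pos hρ0]
    exact hρ1
  have hcont : Continuous f := by
    have h1 : ContinuousOn (deriv h) (ball (0 : ℂ) 1) := (hd.deriv isOpen_ball).continuousOn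
    have h2 : Continuous fun t : ℝ => (ρ : ℂ) * exp ((t : ℂ) * I) := by fun_prop
    exact (h1.comp_continuous h2 hmem).norm
  have hper : Function.Periodic f (2 * π) := by
    intro t
    show ‖deriv h (ρ * exp (((t + 2 * π : ℝ) : ℂ) * I))‖ = ‖deriv h (ρ * exp ((t : ℂ) * I))‖
    have e : exp (((t + 2 * π : ℝ) : ℂ) * I) = exp ((t : ℂ) * I) := by
      push_cast
      rw [add_mul, Complex.exp_add, Complex.exp_two_pi_mul_I, mul_one]
    rw [e]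
  have hIM : IM h ρ = ∫ t in (0 : ℝ)..(2 * π), f t := by
    unfold IM
    refine intervalIntegral.integral_congr fun t _ => ?_
    show ‖deriv h (circleMap 0 ρ t)‖ = ‖deriv h (ρ * exp ((t : ℂ) * I))‖
    rw [circleMap, zero_add]
  set a : ℕ → ℝ := fun k => -(π / 4) + k * (π / 2) with ha
  have hsum : ∑ k ∈ Finset.range 4, ∫ t in (a k)..(a (k + 1)), f t = IM h ρ := by
    rw [intervalIntegral.sum_integral_adjacent_intervals
      (fun k _ => hcont.intervalIntegrable _ _), hIM]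
    have h1 := hper.intervalIntegral_add_eq (-(π / 4)) 0
    rw [zero_add] at h1
    rw [← h1]
    congr 1
    · rw [ha]
      simp
    · rw [ha]
      push_cast
      ring
  obtain ⟨k, hk, hle⟩ : ∃ k ∈ Finset.range 4, IM h ρ / 4 ≤ ∫ t in (a k)..(a (k + 1)), f t := by
    apply Finset.exists_le_of_sum_le (by simp)
    rw [hsum, Finset.sum_const, Finset.card_range]
    simp only [nsmul_eq_mul]
    push_cast
    linarith
  refine ⟨k * (π / 2), hle.trans (le_of_eq ?_)⟩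
  have h2 := intervalIntegral.integral_comp_add_right (a := -(π / 4)) (b := π / 4) f
    ((k : ℝ) * (π / 2))
  have h3 : a k = -(π / 4) + (k : ℝ) * (π / 2) := rfl
  have h4 : a (k + 1) = π / 4 + (k : ℝ) * (π / 2) := by
    rw [ha]
    push_cast
    ring
  rw [h3, h4, ← h2]

/-- TF. -/
theorem hTf (hTa : StTa) (hTl : StTl) (hTg : StTg) : StTf := by
  obtain ⟨C₁, hC₁, hTl'⟩ := hTl
  set C : ℝ := max 17 C₁ with hC
  have hC17 : 17 ≤ C := le_max_left _ _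
  have hCC₁ : C₁ ≤ C := le_max_right _ _
  obtain ⟨c, Q₁, hc, hQ₁, hTg'⟩ := hTg C hC17
  refine ⟨C, hC17, fun β hsup Q₀ => ?_⟩
  obtain ⟨h, ρ, hBU, h0, hd0, hρ0, hρ1, hA, hK⟩ :=
    hsup ((Q₀ : ℝ) + Q₁) (4 * 2 ^ |β| / c)
  have hρ : 0 < 1 - ρ := by linarith
  set Q : ℕ := ⌈1 / (1 - ρ)⌉₊ with hQ
  have hQ1 : 1 / (1 - ρ) ≤ Q := Nat.le_ceil _
  have hQ2 : (Q : ℝ) < 1 / (1 - ρ) + 1 := Nat.ceil_lt_add_one (by positivity)
  have hQ3 : 1 ≤ Q * (1 - ρ) := by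
    rwa [div_le_iff₀ hρ] at hQ1
  have hQ4 : Q * (1 - ρ) ≤ 2 := by
    have h1 : Q * (1 - ρ) ≤ (1 / (1 - ρ) + 1) * (1 - ρ) :=
      mul_le_mul_of_nonneg_right hQ2.le hρ.le
    have h2 : (1 / (1 - ρ) + 1) * (1 - ρ) = 1 + (1 - ρ) := by
      field_simp
    linarith
  have hQA : (Q₀ : ℝ) + Q₁ ≤ Q := by
    have h1 : (Q₀ : ℝ) + Q₁ ≤ 1 / (1 - ρ) := by
      rw [le_div_iff₀ hρ]
      exact hA
    exact h1.trans hQ1
  have hQ₀Q : Q₀ ≤ Q := by
    have : (Q₀ : ℝ) ≤ Q := by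
      have : (0 : ℝ) ≤ Q₁ := Nat.cast_nonneg _
      linarith
    exact_mod_cast this
  have hQ₁Q : Q₁ ≤ Q := by
    have : (Q₁ : ℝ) ≤ Q := by
      have : (0 : ℝ) ≤ Q₀ := Nat.cast_nonneg _
      linarith
    exact_mod_cast this
  have hQpos : (0 : ℝ) < Q := lt_of_lt_of_le (by positivity) hQ1
  -- the rotation
  obtain ⟨s, hs⟩ := quarter_TF hBU hρ0 hρ1
  have hω : ‖exp (((s : ℝ) : ℂ) * I)‖ = 1 := Complex.norm_exp_ofReal_mul_I s
  obtain ⟨hBU', h0', hder⟩ := rot_TF hBU h0 (exp ((s : ℂ) * I)) hω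
  have hd0' : 1 / 2 ≤ ‖deriv (fun z => h (exp ((s : ℂ) * I) * z)) 0‖ := by
    rw [hder 0 (mem_ball_self one_pos), mul_zero]
    exact hd0
  obtain ⟨ψ, hψ⟩ := hTa (fun z => h (exp ((s : ℂ) * I) * z)) hBU' h0' hd0'
  obtain ⟨Φ, κ, hLC, hTou, hexp⟩ := hTl' _ ψ hψ
  refine ⟨Q, κ, Φ, hQ₀Q, LC_mono_TF hCC₁ hLC, Tou_mono_TF hC₁ hCC₁ hTou, fun w hw => ?_⟩
  have hg := hTg' _ ψ Φ ρ Q hBU' hψ hLC.1 hexp hQ₁Q hρ0 hρ1 hQ3 hQ4 w hw
  refine le_trans ?_ hg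
  -- the integral
  have hint : ∫ t in (-(π / 4))..(π / 4),
      ‖deriv (fun z => h (exp ((s : ℂ) * I) * z)) (ρ * exp ((t : ℂ) * I))‖ =
      ∫ t in (-(π / 4))..(π / 4), ‖deriv h (ρ * exp (((t + s : ℝ) : ℂ) * I))‖ := by
    refine intervalIntegral.integral_congr fun t _ => ?_
    have hmem : (ρ : ℂ) * exp ((t : ℂ) * I) ∈ ball (0 : ℂ) 1 := by
      rw [mem_ball_zero_iff, norm_mul, Complex.norm_exp_ofReal_mul_I, mul_one, Complex.norm_real,
        Real.norm_eq_abs, abs_of_pos hρ0]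
      exact hρ1
    show ‖deriv (fun z => h (exp ((s : ℂ) * I) * z)) (ρ * exp ((t : ℂ) * I))‖ =
      ‖deriv h (ρ * exp (((t + s : ℝ) : ℂ) * I))‖
    rw [hder _ hmem]
    congr 2
    push_cast
    rw [add_mul, Complex.exp_add]
    ring
  rw [hint]
  have hpow : (Q : ℝ) ^ β ≤ 2 ^ |β| * (1 - ρ) ^ (-β) := by
    rcases le_total 0 β with hβ | hβ
    · rw [abs_of_nonneg hβ]
      have h1 : (Q : ℝ) ≤ 2 * (1 - ρ)⁻¹ := by
        rw [← div_eq_mul_inv, le_div_iff₀ hρ]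
        exact hQ4
      have h2 : (Q : ℝ) ^ β ≤ (2 * (1 - ρ)⁻¹) ^ β := Real.rpow_le_rpow hQpos.le h1 hβ
      rw [Real.mul_rpow (by norm_num) (by positivity), Real.inv_rpow hρ.le,
        ← Real.rpow_neg hρ.le] at h2
      exact h2
    · have h1 : (Q : ℝ) ^ β ≤ ((1 - ρ)⁻¹) ^ β := by
        apply Real.rpow_le_rpow_of_nonpos (by positivity) _ hβ
        rw [← one_div]
        exact hQ1
      rw [Real.inv_rpow hρ.le, ← Real.rpow_neg hρ.le] at h1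
      have h2 : (1 : ℝ) ≤ 2 ^ |β| := Real.one_le_rpow (by norm_num) (abs_nonneg _)
      have h3 : 0 ≤ (1 - ρ) ^ (-β) := Real.rpow_nonneg hρ.le _
      nlinarith
  have h1 : 2 ^ |β| * (1 - ρ) ^ (-β) ≤ c * (IM h ρ / 4) := by
    have h2 : c * (4 * 2 ^ |β| / c * (1 - ρ) ^ (-β)) ≤ c * IM h ρ :=
      mul_le_mul_of_nonneg_left hK.le hc.le
    have h3 : c * (4 * 2 ^ |β| / c * (1 - ρ) ^ (-β)) = 4 * (2 ^ |β| * (1 - ρ) ^ (-β)) := by
      field_simp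
    linarith
  have h2 : (Q : ℝ) ^ β ≤ c *
      ∫ t in (-(π / 4))..(π / 4), ‖deriv h (ρ * exp (((t + s : ℝ) : ℂ) * I))‖ :=
    (hpow.trans h1).trans (mul_le_mul_of_nonneg_left hs hc.le)
  have h3 := mul_le_mul_of_nonneg_right h2 hQpos.le
  refine h3.trans (le_of_eq ?_)
  ring

end Pool.Agent.Helper75.SR
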