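import Pool.Agent.Helper5.SR.St2

/-!
# Project SR (MP_d6acc2_an), part 2, module XXI: identities for the half-disc map
-/

set_option autoImplicit false

namespace Pool.Agent.Helper75.SR

open Complex MeasureTheory Set Metric Filter Topology
open scoped Real
open Helper5.SR Pool.Agent.Helper51.LT

private theorem den_re_XXI (z : ℂ) :
    (1 + 2 * z - z ^ 2).re = 1 + 2 * z.re - (z.re * z.re - z.im * z.im) := by
  simp [pow_two]

private theorem den_im_XXI (z : ℂ) :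
    (1 + 2 * z - z ^ 2).im = 2 * z.im - (z.re * z.im + z.im * z.re) := by
  simp [pow_two]

private theorem num_re_XXI (z : ℂ) :
    (1 - 2 * z - z ^ 2).re = 1 - 2 * z.re - (z.re * z.re - z.im * z.im) := by
  simp [pow_two]

private theorem num_im_XXI (z : ℂ) :
    (1 - 2 * z - z ^ 2).im = -(2 * z.im) - (z.re * z.im + z.im * z.re) := by
  simp [pow_two]

private theorem norm_sq_XXI (z : ℂ) : ‖z‖ ^ 2 = z.re * z.re + z.im * z.im := by
  rw [Complex.sq_norm, Complex.normSq_apply]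

/-- `|D|²` -/
private theorem den_XXI (z : ℂ) : ‖1 + 2 * z - z ^ 2‖ ^ 2 =
    (1 - ‖z‖ ^ 2) ^ 2 + 4 * z.im ^ 2 + 4 * ‖z‖ ^ 2 + 4 * z.re * (1 - ‖z‖ ^ 2) := by
  rw [norm_sq_XXI (1 + 2 * z - z ^ 2), norm_sq_XXI z, den_re_XXI, den_im_XXI]
  ring

private theorem num_XXI (z : ℂ) : ‖1 - 2 * z - z ^ 2‖ ^ 2 =
    (1 - ‖z‖ ^ 2) ^ 2 + 4 * z.im ^ 2 + 4 * ‖z‖ ^ 2 - 4 * z.re * (1 - ‖z‖ ^ 2) := by
  rw [norm_sq_XXI (1 - 2 * z - z ^ 2), norm_sq_XXI z, num_re_XXI, num_im_XXI]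
  ring

private theorem re_XXI (z : ℂ) : (XX z).re =
    ((1 - ‖z‖ ^ 2) ^ 2 + 4 * z.im ^ 2 - 4 * ‖z‖ ^ 2) / ‖1 + 2 * z - z ^ 2‖ ^ 2 := by
  unfold XX
  rw [Complex.div_re, ← Complex.sq_norm, ← add_div, num_re_XXI, num_im_XXI, den_re_XXI,
    den_im_XXI, norm_sq_XXI z]
  congr 1
  ring

private theorem den_ge_XXI {z : ℂ} (hz : ‖z‖ < 1) (hre : 0 ≤ z.re) : 1 ≤ ‖1 + 2 * z - z ^ 2‖ := by
  have h1 := den_XXI z
  have h2 : 0 ≤ ‖z‖ := norm_nonneg z
  have h3 : 0 ≤ 1 - ‖z‖ ^ 2 := by nlinarith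
  have h4 : 0 ≤ z.re * (1 - ‖z‖ ^ 2) := mul_nonneg hre h3
  have h5 : 1 ≤ ‖1 + 2 * z - z ^ 2‖ ^ 2 := by
    rw [h1]
    nlinarith [sq_nonneg z.im, sq_nonneg (‖z‖ ^ 2), sq_nonneg ‖z‖]
  nlinarith [norm_nonneg (1 + 2 * z - z ^ 2)]

private theorem den_ne_XXI {z : ℂ} (hz : ‖z‖ < 1) (hre : 0 ≤ z.re) : 1 + 2 * z - z ^ 2 ≠ 0 := by
  intro h
  have := den_ge_XXI hz hre
  rw [h, norm_zero] at this
  linarith

/-- XXI. -/
theorem hXXI : StXXI := by
  refine ⟨?_, ?_, ?_⟩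
  · intro z hz hre
    rw [mem_ball_zero_iff] at hz
    have hD := den_ge_XXI hz hre
    have hD0 := den_ne_XXI hz hre
    have hn : 0 ≤ ‖z‖ := norm_nonneg z
    have h3 : 0 ≤ 1 - ‖z‖ ^ 2 := by nlinarith
    have h4 : 0 ≤ z.re * (1 - ‖z‖ ^ 2) := mul_nonneg hre h3
    have hDpos : 0 < ‖1 + 2 * z - z ^ 2‖ ^ 2 := by positivity
    have hder : HasDerivAt XX (-4 * (1 + z ^ 2) / (1 + 2 * z - z ^ 2) ^ 2) z := by
      have hN : HasDerivAt (fun z : ℂ => 1 - 2 * z - z ^ 2) (-2 - 2 * z) z := by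
        have h1 := ((hasDerivAt_const z (1 : ℂ)).sub ((hasDerivAt_id z).const_mul 2)).sub
          ((hasDerivAt_id z).pow 2)
        refine HasDerivAt.congr_deriv h1 ?_
        simp only [id, Nat.cast_ofNat]
        ring
      have hDD : HasDerivAt (fun z : ℂ => 1 + 2 * z - z ^ 2) (2 - 2 * z) z := by
        have h1 := ((hasDerivAt_const z (1 : ℂ)).add ((hasDerivAt_id z).const_mul 2)).sub
          ((hasDerivAt_id z).pow 2)
        refine HasDerivAt.congr_deriv h1 ?_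
        simp only [id, Nat.cast_ofNat]
        ring
      have h2 := hN.div hDD hD0
      refine HasDerivAt.congr_deriv h2 ?_
      congr 1
      ring
    refine ⟨hder, ?_, hD, ?_, ?_, ?_⟩
    · rw [hder.deriv, norm_div, norm_pow, norm_mul]
      have h5 : ‖(1 : ℂ) + z ^ 2‖ ≤ 2 := by
        refine (norm_add_le _ _).trans ?_
        rw [norm_one, norm_pow]
        nlinarith
      have h6 : ‖(-4 : ℂ)‖ = 4 := by
        rw [norm_neg]
        norm_num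
      rw [h6, div_le_iff₀ hDpos]
      have h7 : 1 ≤ ‖1 + 2 * z - z ^ 2‖ ^ 2 := by nlinarith
      nlinarith
    · have h5 : ‖1 + 2 * z - z ^ 2‖ ≤ ‖(1 : ℂ) + 2 * z‖ + ‖z ^ 2‖ := norm_sub_le _ _
      have h6 : ‖(1 : ℂ) + 2 * z‖ ≤ 1 + 2 * ‖z‖ := by
        refine (norm_add_le _ _).trans ?_
        rw [norm_one, norm_mul]
        norm_num
      rw [norm_pow] at h5
      nlinarith
    · have h5 : ‖XX z‖ ^ 2 = ‖1 - 2 * z - z ^ 2‖ ^ 2 / ‖1 + 2 * z - z ^ 2‖ ^ 2 := by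
        unfold XX
        rw [norm_div, div_pow]
      rw [h5, eq_div_iff hDpos.ne', sub_mul, div_mul_cancel₀ _ hDpos.ne', one_mul, den_XXI, num_XXI]
      ring
    · intro hhalf
      rw [re_XXI, le_div_iff₀ hDpos, den_XXI]
      have h5 : ‖z‖ ^ 2 ≤ 1 / 4 := by nlinarith
      nlinarith [sq_nonneg z.im, mul_nonneg hre h3, sq_nonneg (1 - ‖z‖ ^ 2)]
  · intro z hz w hw hzr hwr
    rw [mem_ball_zero_iff] at hz hw
    have h1 := den_ne_XXI hz hzr
    have h2 := den_ne_XXI hw hwr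
    unfold XX
    rw [div_sub_div _ _ h1 h2]
    congr 1
    ring
  · intro ρ t hρ hρ1 ht
    have hz : ‖(ρ : ℂ) * exp (t * I)‖ = ρ := by
      rw [norm_mul, Complex.norm_exp_ofReal_mul_I, mul_one, Complex.norm_real, Real.norm_eq_abs,
        abs_of_nonneg (by linarith)]
    have hre : ((ρ : ℂ) * exp (t * I)).re = ρ * Real.cos t := by
      rw [Complex.re_ofReal_mul, Complex.exp_ofReal_mul_I_re]
    have him : ((ρ : ℂ) * exp (t * I)).im = ρ * Real.sin t := by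
      rw [Complex.im_ofReal_mul, Complex.exp_ofReal_mul_I_im]
    have hpi := Real.pi_pos
    have ht' := abs_le.mp ht
    have hcos2 : 0 ≤ Real.cos (2 * t) :=
      Real.cos_nonneg_of_neg_pi_div_two_le_of_le (by linarith) (by linarith)
    have hcos : 0 ≤ Real.cos t :=
      Real.cos_nonneg_of_neg_pi_div_two_le_of_le (by linarith) (by linarith)
    have hcos1 : Real.cos t ≤ 1 := Real.cos_le_one t
    have hsin : Real.sin t ^ 2 ≤ 1 / 2 := by
      rw [Real.sin_sq_eq_half_sub]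
      linarith
    set z : ℂ := (ρ : ℂ) * exp (t * I) with hzdef
    have hzr : 0 ≤ z.re := by
      rw [hre]
      exact mul_nonneg (by linarith) hcos
    have hD := den_ge_XXI (z := z) (by rw [hz]; exact hρ1) hzr
    have hDpos : 0 < ‖1 + 2 * z - z ^ 2‖ ^ 2 := by positivity
    rw [re_XXI, div_le_iff₀ hDpos, den_XXI, hz, hre, him]
    have h5 : 1 - ρ ^ 2 ≤ 2 / 1000 := by nlinarith
    have h6 : 0 ≤ 1 - ρ ^ 2 := by nlinarith
    have h7 : (ρ * Real.sin t) ^ 2 ≤ ρ ^ 2 / 2 := by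
      rw [mul_pow]
      nlinarith [sq_nonneg ρ]
    have h8 : ρ * Real.cos t * (1 - ρ ^ 2) ≤ 1 * (1 - ρ ^ 2) := by
      apply mul_le_mul_of_nonneg_right _ h6
      nlinarith
    have h9 : (1 - ρ ^ 2) ^ 2 ≤ (1 - ρ ^ 2) := by nlinarith
    nlinarith

end Pool.Agent.Helper75.SR
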